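import Mathlib
import Pool.Agent.Y575.RothLind

/-!
# A Rothberger space which is not omega-Rothberger

The half-open interval topology of a symmetric coherent Aronszajn line is Rothberger, and its
square is not Lindelof.
-/

set_option autoImplicit false

namespace Pool.Agent.Results.MP_f9bcb0_lc.RothbergerSquare

open Set

/-- `𝒰` is an open cover of `X` -/
def OpenCover (X : Type) [TopologicalSpace X] (𝒰 : Set (Set X)) : Prop :=
  (∀ U ∈ 𝒰, IsOpen U) ∧ ⋃₀ 𝒰 = univ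

/-- `𝒰` is an open cover of `X`, `X` is not a member of `𝒰`, and each finite subset of `X` is
contained in a member of `𝒰` -/
def OmegaCover (X : Type) [TopologicalSpace X] (𝒰 : Set (Set X)) : Prop :=
  OpenCover X 𝒰 ∧ univ ∉ 𝒰 ∧ ∀ F : Set X, F.Finite → ∃ U ∈ 𝒰, F ⊆ U

/-- `S₁(O, O)` -/
def Rothberger (X : Type) [TopologicalSpace X] : Prop :=
  ∀ 𝒰 : ℕ → Set (Set X), (∀ n, OpenCover X (𝒰 n)) →
    ∃ U : ℕ → Set X, (∀ n, U n ∈ 𝒰 n) ∧ OpenCover X (range U)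

/-- `S₁(Ω, Ω)` -/
def OmegaRothberger (X : Type) [TopologicalSpace X] : Prop :=
  ∀ 𝒰 : ℕ → Set (Set X), (∀ n, OmegaCover X (𝒰 n)) →
    ∃ U : ℕ → Set X, (∀ n, U n ∈ 𝒰 n) ∧ OmegaCover X (range U)

open Pool.Agent.Helper330.DPK.Coh (W)
open Pool.Agent.TH778.SA (Sq Agree)
open Pool.Agent.Y575

theorem rothberger : Rothberger Roth.X := by
  classical
  intro 𝒰 h𝒰
  have h1 : ∀ (n : ℕ) (x : Roth.X), ∃ V ∈ 𝒰 n, x ∈ V := by
    intro n x
    have : x ∈ ⋃₀ 𝒰 n := by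
      rw [(h𝒰 n).2]
      exact mem_univ _
    exact this
  choose V hV hxV using h1
  have h2 : ∀ (n : ℕ) (x : Roth.X), ∃ y, (∃ z, x < z) → x < y ∧ Ico x y ⊆ V n x := by
    intro n x
    by_cases h : ∃ z, x < z
    · obtain ⟨z, hz⟩ := h
      obtain ⟨y, hy, hyV⟩ := Roth.isOpen_iff.1 ((h𝒰 n).1 _ (hV n x)) x (hxV n x) z hz
      exact ⟨y, fun _ => ⟨hy, hyV⟩⟩
    · exact ⟨x, fun h' => absurd h' h⟩
  choose f hf using h2
  obtain ⟨δ, hδ⟩ := Roth.cells f fun n x hx => (hf n x hx).1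
  -- the pieces
  let 𝒬 : Set (Set Roth.X) := ((fun x : Roth.C => ({x} : Set Roth.X)) '' {x | Roth.ht x < δ}) ∪
    ((fun g : Sq => ({x : Roth.C | δ ≤ Roth.ht x ∧ Agree δ g x.1} : Set Roth.X)) '' Roth.NS δ)
  have h𝒬c : 𝒬.Countable := ((Roth.countable_ht_lt δ).image _).union ((Roth.countable_NS δ).image _)
  have h𝒬u : ∀ x : Roth.C, ∃ P ∈ 𝒬, x ∈ P := by
    intro x
    by_cases hx : Roth.ht x < δ
    · exact ⟨{x}, Or.inl ⟨x, hx, rfl⟩, rfl⟩
    · refine ⟨_, Or.inr ⟨Roth.tr δ x.1, Roth.tr_mem ((Roth.pt x).nd.mono (not_lt.1 hx)), rfl⟩,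
        not_lt.1 hx, fun ξ hξ => ?_⟩
      exact (Roth.agree_tr δ x.1 ξ hξ).symm
  obtain ⟨x0, -, -, -⟩ := Roth.exists_top (Roth.nd_cv δ)
  have h𝒬V : ∀ P ∈ 𝒬, ∀ n, ∃ U ∈ 𝒰 n, P ⊆ U := by
    rintro P (⟨x, hx, rfl⟩ | ⟨g, hg, rfl⟩) n
    · exact ⟨V n x, hV n x, by rintro y rfl; exact hxV n y⟩
    · by_cases hne : ∃ x : Roth.C, δ ≤ Roth.ht x ∧ Agree δ g x.1
      · obtain ⟨x, hx, hgx⟩ := hne
        obtain ⟨d, hd⟩ := hδ x hx n
        have hx' := hd x fun _ _ => rfl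
        refine ⟨V n d, hV n d, ?_⟩
        rintro z ⟨-, hz⟩
        have hz' := hd z fun ξ hξ => (hgx ξ hξ).symm.trans (hz ξ hξ)
        exact (hf n d ⟨x, hx'.1⟩).2 ⟨hz'.1.le, hz'.2⟩
      · refine ⟨V n x0, hV n x0, ?_⟩
        rintro z hz
        exact absurd ⟨z, hz⟩ hne
  have hne : 𝒬.Nonempty := by
    obtain ⟨P, hP, -⟩ := h𝒬u x0
    exact ⟨P, hP⟩
  obtain ⟨e, he⟩ := h𝒬c.exists_eq_range hne
  have he' : ∀ n, e n ∈ 𝒬 := fun n => he ▸ mem_range_self n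
  choose U hU hPU using fun n => h𝒬V (e n) (he' n) n
  refine ⟨U, hU, ?_, ?_⟩
  · rintro _ ⟨n, rfl⟩
    exact (h𝒰 n).1 _ (hU n)
  · rw [eq_univ_iff_forall]
    intro x
    obtain ⟨P, hP, hxP⟩ := h𝒬u x
    rw [he] at hP
    obtain ⟨n, rfl⟩ := hP
    exact ⟨U n, ⟨n, rfl⟩, hPU n hxP⟩

/-- the reflection -/
def nX : Roth.X → Roth.X := Roth.nC

theorem nX_nX (x : Roth.X) : nX (nX x) = x := Roth.nC_nC x

theorem nX_lt {x y : Roth.X} (h : x < y) : nX y < nX x := Roth.nC_lt h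

theorem nX_le {x y : Roth.X} (h : x ≤ y) : nX y ≤ nX x := by
  rcases h.eq_or_lt with rfl | h
  · exact le_rfl
  · exact (nX_lt h).le

/-- boxes which meet the antidiagonal in at most one point -/
theorem boxes (a b : Roth.X) : ∃ V W : Set Roth.X, IsOpen V ∧ IsOpen W ∧ a ∈ V ∧ b ∈ W ∧
    {x | x ∈ V ∧ nX x ∈ W}.Subsingleton := by
  rcases lt_or_ge a (nX b) with h | h
  · by_cases hc : ∃ c, a < c ∧ c < nX b
    · obtain ⟨c, h1, h2⟩ := hc
      refine ⟨Ico a c, Ico b (nX c), Roth.isOpen_Ico' _ _, Roth.isOpen_Ico' _ _, ⟨le_rfl, h1⟩,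
        ⟨le_rfl, ?_⟩, ?_⟩
      · have := nX_lt h2
        rwa [nX_nX] at this
      · rintro x ⟨hx1, hx2⟩
        have := nX_lt hx2.2
        rw [nX_nX, nX_nX] at this
        exact absurd hx1.2 (not_lt.2 this.le)
    · push Not at hc
      refine ⟨Ico a (nX b), Ico b (nX a), Roth.isOpen_Ico' _ _, Roth.isOpen_Ico' _ _,
        ⟨le_rfl, h⟩, ⟨le_rfl, ?_⟩, ?_⟩
      · have := nX_lt h
        rwa [nX_nX] at this
      · rintro x ⟨hx1, hx2⟩
        have h3 : x = a := by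
          by_contra hne
          exact absurd hx1.2 (not_lt.2 (hc x (lt_of_le_of_ne hx1.1 (Ne.symm hne))))
        rw [h3] at hx2
        exact absurd hx2.2 (lt_irrefl _)
  · refine ⟨Ici a, Ici b, Roth.isOpen_Ici' _, Roth.isOpen_Ici' _, self_mem_Ici, self_mem_Ici, ?_⟩
    have key : ∀ x : Roth.X, x ∈ Ici a ∧ nX x ∈ Ici b → x = a := by
      rintro x ⟨hx1, hx2⟩
      have h3 : x ≤ nX b := by
        have := nX_le (mem_Ici.1 hx2)
        rwa [nX_nX] at this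
      exact le_antisymm (h3.trans h) hx1
    intro x hx y hy
    rw [key x hx, key y hy]

theorem not_countable_X : ¬ (univ : Set Roth.X).Countable := Roth.not_countable_C

theorem not_omegaRothberger : ¬ OmegaRothberger Roth.X := by
  classical
  intro hR
  choose V W hV hW haV hbW hVW using boxes
  let 𝒰 : Set (Set Roth.X) := {U | IsOpen U ∧ {x | x ∈ U ∧ nX x ∈ U}.Countable}
  have hfin : ∀ F : Set Roth.X, F.Finite → ∃ U ∈ 𝒰, F ⊆ U := by
    intro F hF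
    let N : Roth.X → Set Roth.X := fun a => ⋂ b ∈ F, (V a b ∩ W b a)
    have hN : ∀ a, IsOpen (N a) := fun a =>
      hF.isOpen_biInter fun b _ => (hV a b).inter (hW b a)
    refine ⟨⋃ a ∈ F, N a, ⟨isOpen_biUnion fun a _ => hN a, ?_⟩, ?_⟩
    · refine (hF.countable.biUnion fun a _ => hF.countable.biUnion fun b _ =>
        (hVW a b).countable).mono (s₁ := {x | x ∈ ⋃ a ∈ F, N a ∧ nX x ∈ ⋃ a ∈ F, N a}) ?_
      rintro x ⟨h1, h2⟩
      obtain ⟨a, ha, hxa⟩ := mem_iUnion₂.1 h1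
      obtain ⟨b, hb, hxb⟩ := mem_iUnion₂.1 h2
      refine mem_iUnion₂.2 ⟨a, ha, mem_iUnion₂.2 ⟨b, hb, ?_, ?_⟩⟩
      · exact (mem_iInter₂.1 hxa b hb).1
      · exact (mem_iInter₂.1 hxb a ha).2
    · intro a ha
      exact mem_iUnion₂.2 ⟨a, ha, mem_iInter₂.2 fun b _ => ⟨haV a b, hbW b a⟩⟩
  have hcov : OmegaCover Roth.X 𝒰 := by
    refine ⟨⟨fun U hU => hU.1, ?_⟩, ?_, hfin⟩
    · rw [eq_univ_iff_forall]
      intro x
      obtain ⟨U, hU, hxU⟩ := hfin {x} (finite_singleton x)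
      exact ⟨U, hU, hxU rfl⟩
    · rintro ⟨-, h⟩
      refine not_countable_X (h.mono fun x _ => ?_)
      show x ∈ univ ∧ nX x ∈ univ
      exact ⟨mem_univ _, mem_univ _⟩
  obtain ⟨U, hU, -, -, h3⟩ := hR (fun _ => 𝒰) fun _ => hcov
  apply not_countable_X
  refine (Set.countable_iUnion fun n => (hU n).2).mono fun x _ => ?_
  obtain ⟨_, ⟨n, rfl⟩, hn⟩ := h3 {x, nX x} ((finite_singleton _).insert _)
  exact mem_iUnion.2 ⟨n, hn (Or.inl rfl), hn (Or.inr rfl)⟩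

theorem not_lindelof : ¬ LindelofSpace (Roth.X × Roth.X) := by
  intro hL
  choose V W hV hW haV hbW hVW using boxes
  obtain ⟨t, ht, hcov⟩ := (isLindelof_univ (X := Roth.X × Roth.X)).elim_countable_subcover
    (fun p : Roth.X × Roth.X => V p.1 p.2 ×ˢ W p.1 p.2)
    (fun p => (hV p.1 p.2).prod (hW p.1 p.2))
    (fun p _ => mem_iUnion.2 ⟨p, show p ∈ V p.1 p.2 ×ˢ W p.1 p.2 from
      ⟨haV p.1 p.2, hbW p.1 p.2⟩⟩)
  apply not_countable_X
  refine (ht.biUnion fun p _ => (hVW p.1 p.2).countable).mono fun x _ => ?_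
  obtain ⟨p, hp, hxp⟩ := mem_iUnion₂.1 (hcov (mem_univ (x, nX x)))
  exact mem_iUnion₂.2 ⟨p, hp, hxp.1, hxp.2⟩

theorem result : ∃ (X : Type) (_ : TopologicalSpace X), T3Space X ∧ Rothberger X ∧
    ¬ OmegaRothberger X ∧ ¬ LindelofSpace (X × X) :=
  ⟨Roth.X, inferInstance, inferInstance, rothberger, not_omegaRothberger, not_lindelof⟩

end Pool.Agent.Results.MP_f9bcb0_lc.RothbergerSquare
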